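import Pool.Agent.Zk7.FJ.Uni

/-!
# Extensions with unipotent finitary linear kernels

`C` is any class of groups with the closure properties `ClosedE C` which contains the metabelian
groups. All this is known for the class of the groups that satisfy the Farrell–Jones conjecture with
coefficients in additive categories and finite wreath products, and hence the K-theoretic
Farrell–Jones conjecture for `ℤ[Γ]`.

Let `R` be any ring, `V` an `R`-module, and let the group `G` act on the abelian group `V` such that
each element of `G` maps `R`-submodules to `R`-submodules, for instance by semilinear maps. Let `N` be a
normal subgroup of `G` with `G ⧸ N` in `C` which acts faithfully by `R`-linear maps such that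

* the submodule generated by `(n - 1) V` has finite length for all `n ∈ N`;
* for each finite subset `T` of `N` the products of `c` factors `t - 1`, `t ∈ T`, vanish for some `c`.

Then `G` is in `C`.

If `R` is a division ring this means that `N` is a locally unipotent group of finitary transformations of
a vector space `V` of arbitrary dimension. So if `G` is a group of finitary (semi)linear transformations
of a vector space over any field, of any characteristic and transcendence degree, and `N` is a normal
subgroup of unipotent elements, then `G` is in `C` if `G ⧸ N` is. For vector spaces of finite dimension
`N` is nilpotent and this is known. In infinite dimension `N` may be perfect, like the group of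
McLain.

Outline of the proof. Fix `g` in `G`. Take a maximal chain `c` of `N`-invariant submodules which is
invariant under `g`. The main point is that `N` acts trivially on the jumps of `c`: Let `X < X'` be
adjacent members of `c` with `g X' = X'` and `x ∈ X' ∖ X`. If `x` is not in the sum of `X` and the
`N`-submodules generated by the `g^i x`, `i ≥ 1`, then this sum and its translates can be inserted in
the chain. So by maximality `x` is in this sum, also in the one with `i ≤ -1`, and `X' / X` is generated
by finitely many of the `g^i x`. By maximality the submodule `X + [X', N]` is `X` or `X'`, and the second
is impossible by the lemma of Nakayama. Now let `E` be a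
finite subset of `N`. The operators `p - 1` with `p` in `P = ⟨E, g E g⁻¹⟩` have values in a submodule `Y` of
finite length and vanish on a submodule `F` with `V / F` of finite length, so only finitely many pairs
`(B, A)` of members of `c` are needed to describe the positions of their values and kernels. The ideals
generated by the `g`-orbits of these pairs form a finite series, invariant under `g`, in which the
products of two operators are one step lower. Then the criterion `MP_5d3e93_al.InvariantSeries` for
kernels with invariant series gives the result.
-/

set_option autoImplicit false

namespace Pool.Agent.Results.MP_e40716_gt.FinitaryUnipotentKernels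

open Pool.Agent.Y110.FJ Pool.Agent.Zk7.FJ

theorem result (C : ∀ (G : Type) [Group G], Prop) (hC : ClosedE C)
    (hmet : ∀ (S : Type) [Group S],
      (∀ a ∈ commutator S, ∀ b ∈ commutator S, a * b = b * a) → C S)
    (G : Type) [Group G] (N : Subgroup G) [N.Normal] (hQ : C (G ⧸ N))
    (R V : Type) [Ring R] [AddCommGroup V] [Module R V] (ρ : G →* AddMonoid.End V)
    (hperm : ∀ (g : G) (X : Submodule R V), ∃ Y : Submodule R V, ∀ v, ρ g v ∈ Y ↔ v ∈ X)
    (hinj : ∀ n ∈ N, ρ n = 1 → n = 1)
    (hlin : ∀ n ∈ N, ∀ (r : R) (v : V), ρ n (r • v) = r • ρ n v)
    (hfin : ∀ n ∈ N, IsFiniteLength R (Submodule.span R (Set.range fun v => ρ n v - v)))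
    (huni : ∀ T : Finset G, (∀ n ∈ T, n ∈ N) → ∃ c : ℕ, ∀ l : List G, (∀ x ∈ l, x ∈ T) →
      l.length = c → (l.map (fun x => ρ x - 1)).prod = 0) : C G :=
  uni_main hC hmet hQ hperm hinj hlin hfin huni

end Pool.Agent.Results.MP_e40716_gt.FinitaryUnipotentKernels
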