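import Pool.Agent.Zk9.GK.Main
import Pool.Agent.R684.FP.Main

/-!
# Extensions whose kernel is a right-angled Coxeter group or a graph product of finite groups

`C` is any class of groups with the closure properties `ClosedE C` which contains the groups `F ⋊ ℤ` for
all free groups `F` and all automorphisms of `F`. All this is published for the class of the groups which
satisfy the Farrell–Jones conjecture with coefficients in additive categories and finite wreath
products (Bartels, Lück, Reich; Bestvina, Fujiwara, Wigglesworth; Brück, Kielak, Wu).

Let `N` be a normal subgroup of `G` such that `G ⧸ N` is in `C`, and suppose that `N` is the free product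
of a free group (of any rank, on the elements `x j`) and of the graph product of nontrivial subgroups
`A v` along a graph `Λ` whose connected components are finite (there may be infinitely many of them).
If all the groups `A v` are finite, then `G` is in `C`, without any condition on the action of `G`
on `N`.

The case of groups of order two and of a finite graph `Λ` says that `C` is closed under extensions with
kernel a finitely generated right-angled Coxeter group; the automorphism groups of these kernels are
infinite in general, with transvections and partial conjugations, and do not preserve the conjugacy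
classes of the vertex groups.

More generally the groups `A v` may be finitely generated groups with Serre's property (FA), for
instance with Kazhdan's property (T), if `A_Δ ⋊ ℤ` is in `C` for all automorphisms of the direct
products `A_Δ` of the `A v` over the cliques `Δ` of `Λ`; this holds if the `A v` are in `C` and the outer
automorphism groups of the `A_Δ` are torsion groups. If `A_Δ` is finite then the condition holds.

Outline of the proof.

* A group with property (FA) which maps to the graph product over a finite graph is mapped to a
  conjugate of `A_Δ` for some clique `Δ`: use the trees of the decompositions of the graph product as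
  amalgamated products. So `G` permutes the conjugacy classes of the subgroups `A_M`, `M` a maximal
  clique, and a subgroup `G₀` of finite index in `G` preserves them.
* Let `S` be a class of vertices with the same closed neighbourhood, and let this neighbourhood be
  maximal. Then `S` is the intersection of the maximal cliques which contain `S`, and it follows that
  `G₀` preserves the conjugacy class of `A_S`, hence the normal closure `K` of `A_S` in `N`.
* `K` is the free product of conjugates of `A_S`, indexed by the cosets of the subgroup generated by
  the neighbours of `S` in the subgroup generated by the vertices outside `S`, and `G₀` permutes the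
  conjugacy classes of these factors. So `G₀` is in `C` if `G₀ ⧸ K` is, where `N ⧸ K` is the graph product
  over the smaller graph `Λ ∖ S`.
* For infinite graphs: the graph product over a connected graph fixes a vertex in every action on a
  tree with trivial edge stabilizers, so `G` permutes the conjugacy classes of the components.
-/

set_option autoImplicit false

namespace Pool.Agent.Results.MP_e40716_gt.GraphProductKernels

open Pool.Agent.Y110.FJ (ClosedE)
open Q30.FJ (GFree)
open Pool.Agent.Zk9.GK (FA)

/-- the groups `H ⋊ ℤ` are in `C`, for all automorphisms of `H` -/
def MappingTori (C : ∀ (G : Type) [Group G], Prop) (H : Type) [Group H] : Prop :=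
  ∀ φ : MulAut H, C (H ⋊[zpowersHom (MulAut H) φ] Multiplicative ℤ)

/-- `H` is finite, or finitely generated with property (FA) -/
def FiniteOrFA (H : Type) [Group H] : Prop := Finite H ∨ (FA H ∧ Group.FG H)

theorem result (C : ∀ (G : Type) [Group G], Prop) (hC : ClosedE C)
    (hF : ∀ X : Type, MappingTori C (FreeGroup X))
    (G : Type) [Group G] (N : Subgroup G) [N.Normal] (hQ : C (G ⧸ N))
    (V J : Type) (Λ : SimpleGraph V) (A : V → Subgroup G) (x : J → G) (h : GFree Λ A x N)
    (hfin : ∀ v, {w | Λ.Reachable v w}.Finite) (hne : ∀ v, A v ≠ ⊥)
    (hA : ∀ v, FiniteOrFA (A v))
    (hΔ : ∀ Δ : Set V, Λ.IsClique Δ → Infinite ↥(⨆ v : Δ, A v) →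
      MappingTori C ↥(⨆ v : Δ, A v)) : C G := by
  have hclosed : Q30.FJ.ClosedF C := ⟨hC, fun G _ N _ hN hQ => by
    have := hN
    exact Pool.Agent.R684.FP.free_ext hC hF N hQ⟩
  refine Pool.Agent.Zk9.GK.comp_main hclosed h ?_ hne ?_ ?_ ?_ hQ
  · intro c
    obtain ⟨v, hv⟩ := c.nonempty_supp
    refine (hfin v).subset ?_
    intro w hw
    have h1 : Λ.connectedComponentMk v = c := hv
    have h2 : Λ.connectedComponentMk w = c := hw
    exact SimpleGraph.ConnectedComponent.exact (h1.trans h2.symm)
  · intro v
    rcases hA v with h1 | h1
    · exact Pool.Agent.Zk9.GK.FA.of_finite _
    · exact h1.1
  · intro v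
    rcases hA v with h1 | h1
    · infer_instance
    · exact h1.2
  · intro Δ hc
    rcases finite_or_infinite ↥(⨆ v : Δ, A v) with h1 | h1
    · exact @Pool.Agent.Zk9.GK.Good.of_finite C hC.base ↥(⨆ v : Δ, A v) _ h1
    · intro φ
      refine ⟨_, inferInstance, SemidirectProduct.inl,
        SemidirectProduct.inr (Multiplicative.ofAdd (1 : ℤ)), hΔ Δ hc h1 φ,
        SemidirectProduct.inl_injective, ?_⟩
      intro y
      have h3 := SemidirectProduct.inl_aut (φ := zpowersHom (MulAut ↥(⨆ v : Δ, A v)) φ)
        (Multiplicative.ofAdd (1 : ℤ)) y
      have h4 : zpowersHom (MulAut ↥(⨆ v : Δ, A v)) φ (Multiplicative.ofAdd (1 : ℤ)) = φ := by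
        rw [zpowersHom_apply]
        exact zpow_one φ
      rw [h4, map_inv] at h3
      exact h3

end Pool.Agent.Results.MP_e40716_gt.GraphProductKernels
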