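import Pool.Agent.Zk85.GL.Ge
import Pool.Agent.Zk85.GL.Fp

/-!
# The groups GL_2 over polynomial rings and over rings with a degree function

`C` is any class of groups with the closure properties `ClosedE C` which contains the metabelian groups
and satisfies `AcylF C`: a finitely generated group that acts on a tree without inversions, such that
for some `k` and `n` the pointwise stabilizers of the paths of length at least `k` have at most `n`
elements, is in `C` if the vertex stabilizers are in `C`. All this is known for the class of the groups
whose wreath products with finite groups satisfy the K- and L-theoretic Farrell-Jones conjecture with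
coefficients (`AcylF` is a theorem of Knopf).

(1) **Polynomial rings.** If `K` is a field and `GL_2(K)` is in `C`, then `GL_2(K[X_i : i ∈ I])` is in `C`
for every set `I` of variables. By a theorem of Rüping this applies to `K = ℚ` and, by restriction of
scalars, to all algebraic extensions of `ℚ`; so it applies to all subgroups like `SL_2(ℤ[X_1, ..., X_n])`
or `GL_2(𝒪[X_1, X_2, ...])` for the ring `𝒪` of all algebraic integers.

(2) For an algebraic extension `K` of a finite field `GL_2(K[X_i : i ∈ I])` is in `C`.

(3) **Bounded denominators.** Let `A` be a domain. Suppose that for all fields `L ⊇ A` all subgroups `Γ`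
of `GL_2(L)` with `d Γ ⊆ M_2(A)` for some `d ≠ 0` in `A` are in `C`. Then the domain `A[X_i : i ∈ I]` has
the same property.

(4) **Rings with a degree function.** Let `k` be a field, `R` a `k`-algebra, commutative or not, with a
degree function: `deg` has values in `ℕ` on the nonzero elements, `deg (x + y) ≤ max (deg x) (deg y)`,
`deg (x y) = deg x + deg y`, and the elements of degree zero are the constants. Examples are polynomial
rings, free associative algebras, enveloping algebras of Lie algebras, Weyl algebras. Let `GE_2` be the
group generated by `GL_2(k)` and the invertible upper triangular matrices over `R`. Then each subgroup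
`Γ` of `GE_2` such that `Γ ∩ x GL_2(k) x⁻¹` is in `C` for all `x` in `GE_2` is in `C`. In particular
`GE_2` is in `C` if `GL_2(k)` is. (For a free associative algebra, and for polynomials in one variable,
`GE_2` is the whole group `GL_2(R)`, but not for polynomials in several variables.)

Outline of the proof. (4) The vertices are the cosets of `GL_2(k)` and of the triangular group `B`. The
degree of a matrix and the degree of its first column are a level function for which each vertex has at
most one neighbour of lower level, so the graph is a tree (this reproves the theorems of Nagao and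
Cohn). An element which fixes a path of length three is a scalar matrix. The vertex groups
`Γ ∩ x B x⁻¹` are metabelian. The scalars are taken care of by a determinant, which exists by the universal
property of the tree also if `R` is not commutative: if the determinants of the elements of `Γ` form a
cyclic group, then either `Γ` has only the scalars `z` with `z² = 1`, and `AcylF` applies, or
`(Γ ∩ SL) × ⟨z⟩` has finite index in `Γ` for a scalar `z`. The general case follows by the extension
criterion.

(3) Let `F` be the field of fractions of `A`. A group `Γ` with denominators bounded by `d ∈ A[X]`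
preserves the `F[X]`-lattice generated by the columns of its elements, which is free since `F[X]` is a
principal ideal domain. So it is conjugate to a subgroup of `GL_2(F[X])`. By (4) it is enough to consider
`Γ ∩ y GL_2(F) y⁻¹`. The conjugate of this group in `GL_2(F)` has denominators bounded by an element of
`A[X]`, and since its entries are constants, by the leading coefficient of this element, which is in `A`.
-/

set_option autoImplicit false

namespace Pool.Agent.Results.MP_e40716_gt.PolynomialGL2

open Pool.Agent.Y110.FJ (ClosedE)
open Pool.Agent.N509.TX (AcylF)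

/-- For every field `L` containing `A`, all subgroups of `GL_2(L)` with denominators bounded by an
element `d ≠ 0` of `A` are in `C`. -/
def BoundedGroups (C : ∀ (G : Type) [Group G], Prop) (A : Type) [CommRing A] : Prop :=
  ∀ (L : Type) [Field L] [Algebra A L], Function.Injective (algebraMap A L) →
    ∀ Γ : Subgroup (Matrix.GeneralLinearGroup (Fin 2) L),
      (∃ d : A, d ≠ 0 ∧ ∀ γ ∈ Γ, ∀ i j, ∃ a : A, algebraMap A L a =
        algebraMap A L d * (γ : Matrix (Fin 2) (Fin 2) L) i j) → C Γ

/-- A degree function on the `k`-algebra `R`; the value at `0` is `0` by `zero`. -/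
structure DegreeFunction (k R : Type) [Field k] [Ring R] [Algebra k R] where
  deg : R → ℕ
  add : ∀ x y : R, deg (x + y) ≤ max (deg x) (deg y)
  ne_zero : ∀ x y : R, x ≠ 0 → y ≠ 0 → x * y ≠ 0
  mul : ∀ x y : R, x ≠ 0 → y ≠ 0 → deg (x * y) = deg x + deg y
  zero : ∀ x : R, deg x = 0 ↔ ∃ c : k, algebraMap k R c = x

/-- The invertible matrices with entries in `k` whose inverse has entries in `k`. -/
def ConstantMatrices (k R : Type) [Field k] [Ring R] [Algebra k R] :
    Subgroup (Matrix (Fin 2) (Fin 2) R)ˣ :=
  (Units.map ((algebraMap k R).mapMatrix (m := Fin 2)).toMonoidHom).range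

/-- The group generated by the constant and the upper triangular invertible matrices. -/
def GE2 (k R : Type) [Field k] [Ring R] [Algebra k R] : Subgroup (Matrix (Fin 2) (Fin 2) R)ˣ :=
  Subgroup.closure {g | g ∈ ConstantMatrices k R ∨ (g : Matrix (Fin 2) (Fin 2) R) 1 0 = 0}

/-- The statement (4) for the ring `R`. -/
def DegreeRing (C : ∀ (G : Type) [Group G], Prop) (k R : Type) [Field k] [Ring R] [Algebra k R] :
    Prop :=
  ∀ Γ : Subgroup (Matrix (Fin 2) (Fin 2) R)ˣ, Γ ≤ GE2 k R →
    (∀ x ∈ GE2 k R, C ↥(Γ ⊓ (ConstantMatrices k R).map (MulAut.conj x).toMonoidHom)) → C Γ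

theorem result (C : ∀ (G : Type) [Group G], Prop) (hC : ClosedE C)
    (hM : ∀ (G : Type) [Group G], derivedSeries G 2 = ⊥ → C G) (hA : AcylF C) :
    -- (1)
    (∀ (K : Type) [Field K] (I : Type), C (Matrix.GeneralLinearGroup (Fin 2) K) →
      C (Matrix.GeneralLinearGroup (Fin 2) (MvPolynomial I K))) ∧
    -- (2)
    (∀ (p : ℕ) [Fact p.Prime] (K : Type) [Field K] [Algebra (ZMod p) K]
      [Algebra.IsAlgebraic (ZMod p) K] (I : Type),
      C (Matrix.GeneralLinearGroup (Fin 2) (MvPolynomial I K))) ∧
    -- (3)
    (∀ (A : Type) [CommRing A] [IsDomain A] (I : Type), BoundedGroups C A →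
      BoundedGroups C (MvPolynomial I A)) ∧
    -- (4)
    (∀ (k R : Type) [Field k] [Ring R] [Algebra k R] [Nontrivial R], DegreeFunction k R →
      DegreeRing C k R) := by
  have h1 : ∀ (K : Type) [Field K] (I : Type), C (Matrix.GeneralLinearGroup (Fin 2) K) →
      C (Matrix.GeneralLinearGroup (Fin 2) (MvPolynomial I K)) := by
    intro K _ I h
    exact Pool.Agent.Zk85.GL.BD.whole hC
      (Pool.Agent.Zk85.GL.BD.mv hC hM hA (Pool.Agent.Zk85.GL.BD.field hC h) I)
  refine ⟨h1, ?_, ?_, ?_⟩
  · intro p _ K _ _ _ I
    exact h1 K I (Pool.Agent.Zk85.GL.C_fp hC p K)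
  · intro A _ _ I h
    exact Pool.Agent.Zk85.GL.BD.mv hC hM hA h I
  · intro k R _ _ _ _ D Γ hΓ h
    obtain ⟨D', hD'⟩ : ∃ D' : Pool.Agent.Zk85.GL.Deg k R, D'.n = D.deg :=
      ⟨⟨D.deg, D.add, D.ne_zero, D.mul, D.zero⟩, rfl⟩
    have hle : GE2 k R ≤ Pool.Agent.Zk85.GL.A k R ⊔ Pool.Agent.Zk85.GL.B D' := by
      unfold GE2
      rw [Subgroup.closure_le]
      rintro g (hg | hg)
      · exact Subgroup.mem_sup_left hg
      · exact Subgroup.mem_sup_right hg
    have hge : Pool.Agent.Zk85.GL.A k R ⊔ Pool.Agent.Zk85.GL.B D' ≤ GE2 k R := by
      refine sup_le ?_ ?_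
      · intro g hg
        exact Subgroup.subset_closure (Or.inl hg)
      · intro g hg
        exact Subgroup.subset_closure (Or.inr hg)
    refine Pool.Agent.Zk85.GL.ge2 D' hC hM hA Γ (hΓ.trans hle) fun x hx => ?_
    have h2 : Pool.Agent.Zk85.GL.cj x (Pool.Agent.Zk85.GL.A k R) =
        (ConstantMatrices k R).map (MulAut.conj x).toMonoidHom := by
      ext g
      rw [Pool.Agent.Zk85.GL.mem_cj]
      constructor
      · intro hg
        exact ⟨_, hg, by
          show x * (x⁻¹ * g * x) * x⁻¹ = g
          group⟩
      · rintro ⟨a, ha, rfl⟩
        have e : x⁻¹ * ((MulAut.conj x).toMonoidHom a) * x = a := by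
          show x⁻¹ * (x * a * x⁻¹) * x = a
          group
        rw [e]
        exact ha
    rw [h2]
    exact h x (hge hx)

end Pool.Agent.Results.MP_e40716_gt.PolynomialGL2
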