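import Pool.Agent.Zk85.CS.AmCyc

/-!
# Graphs of groups with isolated edge groups, relative form

`C` is any class of groups with the closure properties `ClosedE C` which contains the metabelian groups
and satisfies `AcylF C`: a finitely generated group that acts on a tree without inversions, such that
for some `k` and `n` the pointwise stabilizers of the paths of length at least `k` have at most `n`
elements, is in `C` if the vertex stabilizers are in `C`. All this is known for the class of the groups
whose wreath products with finite groups satisfy the K- and L-theoretic Farrell-Jones conjecture with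
coefficients (`AcylF` is a theorem of Knopf).

Let `G` act on a tree with vertex stabilizers in `C`. Suppose that the edge groups are isolated: the
stabilizers of two edges at a vertex are infinite and commensurable, or their intersection has at most
`n` elements. For an edge at the vertex `v` with infinite stabilizer `E` we write `Comm E` for the
commensurator of `E` in `G`.

(1) **Relative condition.** Suppose that for each such edge there are a homomorphism `f` from `Comm E` to
a group in `C` and a subgroup `N` of `K = G_v ∩ ker f`, normalized by `G_v ∩ Comm E`, with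

* `E' ∩ K ≤ N` and `E' ∩ [N, N] = 1` for all edge groups `E'` at `v` commensurable with `E`;
* for each `g` in `G_v ∩ Comm E` the group `⟨K, g⟩ / N` embeds in a group in `C`.

Then `G` is in `C`. (If `f` is trivial, the second condition says that `(G_v ∩ Comm E) / N` embeds in a
group in `C`.) At each edge one may also use the conditions of `MP_b6f35e_al.IsolatedEdgeGroups`
(`EC`), i.e. essentially `E ∩ [K, K] = 1`, the case `N = K`.

(2) **Infinite cyclic edge groups.** Suppose that each edge group is infinite cyclic or has at most `n`
elements, and that for each infinite edge group `E` at `v` there is a normal subgroup `N` of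
`G_v ∩ Comm E` which contains the edge groups at `v` commensurable with `E`, such that
`(G_v ∩ Comm E) / N` embeds in a group in `C` and `E ∩ [N, N] = 1` (for instance `N` is commutative).
Then `G` is in `C`.

(3) **Amalgams.** Let `G` be the amalgam of `A` and `B`, both in `C`, along an infinite group
`E = A ∩ B`, such that `E ∩ a E a⁻¹` has at most `n` elements or `a` is in the commensurator
`Comm_A E`, for all `a` in `A`, and the same for `B` (if `E` is infinite cyclic, this is automatic).
Suppose that `Comm_A E` has a normal subgroup `N` with `E ≤ N`, `E ∩ [N, N] = 1`, whose quotient embeds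
in a group in `C`, and the same for `B`. Then `G` is in `C`.

In `MP_b6f35e_al.IsolatedEdgeGroups` the edge groups embed in the abelianizations of their (virtual)
centralizers in the vertex groups. Here this is only required for `N`. For instance, `A` may be a
pure mapping class group or a pure braid group and `E` may be generated by any element `x`, such as a
Dehn twist, of which a power is a product of commutators in its centralizer: roots are unique in `A`, so
the elements with a power in `E` form a commutative normal subgroup `N` of `Comm_A E`, and the quotient
is built from mapping class groups and free abelian groups. Or `A` is a central extension of a group in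
`C` by `ℤ` with an arbitrary Euler class and `E ≤ ℤ`. No relation is assumed between the two inclusions of
the edge groups, so the generator of `E` may be conjugate in `G` to any of its powers.

Outline of the proof. As for `IsolatedEdgeGroups`, the vertices and the cylinders, the classes of edges
with commensurable stabilizers, form a tree on which `G` acts acylindrically, and one has to treat the
stabilizer `H` of a cylinder, or a finitely generated subgroup of it. It acts on a tree `T` with vertex
groups in `Comm E`. The local data (`f`, `N`) at representatives of the finitely many orbits of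
vertices can be spread equivariantly and made subordinate to one homomorphism `F` of `H`, with kernel
the intersection of the kernels of all `f` (`Zk85.CS.local_fin`). The subgroups `N` are then compatible
along the edges. The group `M` which they generate meets each vertex group exactly in `N`
(`Zk85.CS.Cmp.stab`), `H / M` acts on the quotient tree, and `F` is injective on its edge groups
(`Zk85.CS.quot_rel`), so that `H / M` is in `C`. Finally the edge groups of `M` embed in the
abelianizations of the vertex groups `N`, and `H` is in `C` (`Zk85.CS.relative`).
-/

set_option autoImplicit false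

namespace Pool.Agent.Results.MP_e40716_gt.RelativeIsolatedEdges

open Subgroup
open Subgroup.Commensurable (commensurator)
open Pool.Agent.Y110.FJ (ClosedE)
open Pool.Agent.N509.TX (AcylF)
open Pool.Agent.N431.CE (Es Kv EC)
open Pool.Agent.Helper705_SA (IsAmalgam)

/-- `H / (H ∩ K)` embeds in a group in the class: some homomorphism from `H` to a group in the class
has kernel `H ∩ K`. -/
def EmbedsMod (C : ∀ (G : Type) [Group G], Prop) {G : Type} [Group G] (H K : Subgroup G) : Prop :=
  ∃ (P : Type) (_ : Group P) (φ : H →* P), C P ∧ ∀ x : H, φ x = 1 ↔ (x : G) ∈ K

/-- The condition in (1) for the edge from `v` to `u`. Here `Es G v u` is the stabilizer `E` of the edge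
and `Kv f v` is the intersection of the kernel of `f` with the stabilizer of `v`. -/
def RelativeCondition (C : ∀ (G : Type) [Group G], Prop) (G : Type) {V : Type} [Group G]
    [MulAction G V] (T : SimpleGraph V) (v u : V) : Prop :=
  ∃ (P : Type) (_ : Group P) (f : commensurator (Es G v u) →* P) (N : Subgroup G),
    C P ∧ N ≤ Kv f v ∧
    (∀ g ∈ commensurator (Es G v u), g • v = v → ∀ n ∈ N, g * n * g⁻¹ ∈ N) ∧
    (∀ u', T.Adj v u' → Commensurable (Es G v u) (Es G v u') →
      Es G v u' ⊓ Kv f v ≤ N ∧ Es G v u' ⊓ ⁅N, N⁆ = ⊥) ∧
    ∀ g ∈ commensurator (Es G v u), g • v = v → EmbedsMod C (Kv f v ⊔ Subgroup.zpowers g) N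

/-- The condition in (3) for a factor `A` of an amalgam along `E`. -/
def FactorCondition (C : ∀ (G : Type) [Group G], Prop) {G : Type} [Group G] (A E : Subgroup G) :
    Prop :=
  ∃ N ≤ A ⊓ commensurator E, EmbedsMod C (A ⊓ commensurator E) N ∧ E ≤ N ∧ E ⊓ ⁅N, N⁆ = ⊥

theorem result (C : ∀ (G : Type) [Group G], Prop) (hC : ClosedE C)
    (hM : ∀ (G : Type) [Group G], derivedSeries G 2 = ⊥ → C G) (hA : AcylF C) :
    -- actions on trees
    (∀ (G V : Type) [Group G] [MulAction G V] (T : SimpleGraph V), T.IsTree →
      (∀ (g : G) (u v : V), T.Adj u v → T.Adj (g • u) (g • v)) →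
      (∀ v : V, C ↥(MulAction.stabilizer G v)) → ∀ n : ℕ,
      -- (1)
      ((∀ v a b, T.Adj v a → T.Adj v b → a ≠ b →
          (Infinite (Es G v a) ∧ Infinite (Es G v b) ∧ Commensurable (Es G v a) (Es G v b)) ∨
          ∀ F : Finset G, (∀ g ∈ F, g ∈ Es G v a ∧ g ∈ Es G v b) → F.card ≤ n) →
        (∀ v u : V, T.Adj v u → Infinite (Es G v u) →
          EC C G v u ∨ RelativeCondition C G T v u) → C G) ∧
      -- (2) infinite cyclic edge groups
      ((∀ v u, T.Adj v u → (Infinite (Es G v u) ∧ IsCyclic (Es G v u)) ∨
          ∀ F : Finset G, (∀ g ∈ F, g ∈ Es G v u) → F.card ≤ n) →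
        (∀ v u : V, T.Adj v u → Infinite (Es G v u) →
          ∃ N ≤ MulAction.stabilizer G v ⊓ commensurator (Es G v u),
            EmbedsMod C (MulAction.stabilizer G v ⊓ commensurator (Es G v u)) N ∧
            (∀ u', T.Adj v u' → Commensurable (Es G v u) (Es G v u') → Es G v u' ≤ N) ∧
            Es G v u ⊓ ⁅N, N⁆ = ⊥) → C G)) ∧
    -- (3) amalgams
    (∀ (G : Type) [Group G] (A B : Subgroup G), IsAmalgam A B → C A → C B →
      Infinite ↥(A ⊓ B) → ∀ n : ℕ,
      (∀ a ∈ A, a ∉ commensurator (A ⊓ B) → ∀ F : Finset G,
        (∀ x ∈ F, x ∈ A ⊓ B ∧ a⁻¹ * x * a ∈ A ⊓ B) → F.card ≤ n) →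
      (∀ b ∈ B, b ∉ commensurator (A ⊓ B) → ∀ F : Finset G,
        (∀ x ∈ F, x ∈ A ⊓ B ∧ b⁻¹ * x * b ∈ A ⊓ B) → F.card ≤ n) →
      FactorCondition C A (A ⊓ B) → FactorCondition C B (A ⊓ B) → C G) := by
  refine ⟨?_, ?_⟩
  · intro G V _ _ T hT hact hV n
    exact ⟨fun hint hE => Pool.Agent.Zk85.CS.isol hC hM hA hT hact hV n hint hE,
      fun hcyc hE => Pool.Agent.Zk85.CS.cyc hC hM hA hT hact hV n hcyc hE⟩
  · intro G _ A B h hCA hCB hinf n h1 h2 h3 h4
    exact Pool.Agent.Zk85.CS.amalgam_isol hC hM hA A B h hCA hCB hinf n h1 h2 h3 h4

end Pool.Agent.Results.MP_e40716_gt.RelativeIsolatedEdges
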